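import Pool.Agent.Helper32.HM.CoreDefs

/-! # HM module Core: the core theorem -/

set_option autoImplicit false

namespace Pool.Agent.Helper32.HM

open Set Filter Classical

variable {P : Type} [Preorder P] {I : Type} [LinearOrder I]

/-- If `p₀` forces that the set `A` of reals is `PM_σ` then it forces that `A` is covered by an
`F_σ` set which is null for the measure coded by `c`. -/
theorem core [WellFoundedLT I] (H : HI P I) (A : (GF P → ℕ → Bool) → Set (GF P))
    (hA : ∀ f, Nam univ f → BP (A f)) {c : GF P → ℕ → Bool} (hc : Nam univ c)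
    (hc' : ∀ G, IsMeas (wt (c G))) (p₀ : P)
    (hPM : ∀ q ≤ p₀, ∀ T : GF P → ℕ → Bool, Nam univ T → (∀ G n, PerfT (tr (T G) n)) →
      ∃ q' ≤ q, ∃ S : GF P → ℕ → Bool, Nam univ S ∧
        Fo q' {G | ∀ m n, NwdT (tr (S G) m) (tr (T G) n)} ∧
        ∀ f, Nam univ f → Fo q' {G | G ∈ A f → ∃ m, f G ∈ br (tr (S G) m)}) :
    ∃ S : GF P → ℕ → Bool, Nam univ S ∧ (∀ G m, NullT (wt (c G)) (tr (S G) m)) ∧
      ∀ f, Nam univ f → Fo p₀ {G | G ∈ A f → ∃ m, f G ∈ br (tr (S G) m)} := sorry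

end Pool.Agent.Helper32.HM
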