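import Pool.Agent.Helper32.HM.NmDefs

/-! # HM module Mod3: from the core theorem to a model -/

set_option autoImplicit false

namespace Pool.Agent.Helper32.HM

open Set Filter Pool.Agent.Helper87.Sym Classical

/-- If the core theorem holds for the poset `P` then there is a countable transitive model of ZFC
in which `PM_σ ⊆ PN_σ` holds for subsets of the Cantor space. -/
theorem exists_model {P : Type} [Preorder P] [OrderTop P]
    (hP : ∀ A : Set P, (∀ p ∈ A, ∀ q ∈ A, p ≠ q → ¬ Cmp p q) → A.Countable)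
    (core : ∀ A : (GF P → ℕ → Bool) → Set (GF P), (∀ f, Nam univ f → BP (A f)) →
      ∀ c : GF P → ℕ → Bool, Nam univ c → (∀ G, IsMeas (wt (c G))) → ∀ p₀ : P,
      (∀ q ≤ p₀, ∀ T : GF P → ℕ → Bool, Nam univ T → (∀ G n, PerfT (tr (T G) n)) →
        ∃ q' ≤ q, ∃ S : GF P → ℕ → Bool, Nam univ S ∧
          Fo q' {G | ∀ m n, NwdT (tr (S G) m) (tr (T G) n)} ∧
          ∀ f, Nam univ f → Fo q' {G | G ∈ A f → ∃ m, f G ∈ br (tr (S G) m)}) →
      ∃ S : GF P → ℕ → Bool, Nam univ S ∧ (∀ G m, NullT (wt (c G)) (tr (S G) m)) ∧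
        ∀ f, Nam univ f → Fo p₀ {G | G ∈ A f → ∃ m, f G ∈ br (tr (S G) m)}) :
    ∃ M : Set ZFSet.{0}, M.Countable ∧ IsTransModelZFC M ∧ PMN (realsOf M) (setsOf M) := sorry

end Pool.Agent.Helper32.HM
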