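import Pool.Agent.Helper32.HM.PolDefs

/-! # HM module Pol3: transfer of `PM_σ` and `PN_σ` along the embedding -/

set_option autoImplicit false

namespace Pool.Agent.Helper32.HM

open Set MeasureTheory Topology Pool.Agent.Helper26.PN

universe u

variable {X : Type u} [TopologicalSpace X] [PolishSpace X]

theorem pm_transfer {Z : Set X} (hZ : IsFsig Z) {ψ : ↥Zᶜ → (ℕ → Bool)} (hψ : IsEmbedding ψ)
    (hc : (closure (range ψ) \ range ψ).Countable) {A : Set X} (hA : PMσ A) :
    PMσ (ψ '' {x | x.1 ∈ A}) := sorry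

theorem pn_transfer [MeasurableSpace X] [BorelSpace X] (μ : Measure X) [IsFiniteMeasure μ]
    [NullSingletonClass μ] {Z : Set X} (hZ : IsFsig Z) (hZ' : μ Z = 0) {ψ : ↥Zᶜ → (ℕ → Bool)}
    (hψ : IsEmbedding ψ) {A : Set X} (h : PNσ (ψ '' {x | x.1 ∈ A})) :
    ∃ F : Set X, IsFsig F ∧ A ⊆ F ∧ μ F = 0 := sorry

/-- The inclusion for the Cantor space implies the inclusion for all Polish spaces. -/
theorem pm_pn_of_cantor (h : ∀ A : Set (ℕ → Bool), PMσ A → PNσ A) [MeasurableSpace X]
    [BorelSpace X] {A : Set X} (hA : PMσ A) : PNσ A := sorry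

end Pool.Agent.Helper32.HM
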