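import Pool.Agent.Helper32.HM.PolDefs

/-! # HM module Pol4: `PN_σ ⊆ PM_σ ∩ UN` -/

set_option autoImplicit false

namespace Pool.Agent.Helper32.HM

open Set MeasureTheory Topology Pool.Agent.Helper26.PN

universe u

variable {X : Type u} [TopologicalSpace X] [PolishSpace X] [MeasurableSpace X] [BorelSpace X]

/-- Every nonempty perfect set carries a finite non-atomic measure positive on all its nonempty
relatively open subsets. -/
theorem exists_full_measure {P : Set X} (hP : Perfect P) :
    ∃ μ : Measure X, IsFiniteMeasure μ ∧ NullSingletonClass μ ∧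
      ∀ V : Set X, IsOpen V → (V ∩ P).Nonempty → 0 < μ (V ∩ P) := sorry

theorem pn_pm {A : Set X} (hA : PNσ A) : PMσ A := sorry

theorem pn_un {A : Set X} (hA : PNσ A) : UN A := sorry

end Pool.Agent.Helper32.HM
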