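import Pool.Agent.Helper32.HM.PolDefs

/-! # HM module Pol5c: PMN univ univ implies the inclusion for the Cantor space -/

set_option autoImplicit false

namespace Pool.Agent.Helper32.HM

open Set MeasureTheory Topology Pool.Agent.Helper26.PN

theorem measure_br_zero (μ : Measure (ℕ → Bool)) [IsFiniteMeasure μ] {w : Node → ℝ} {a : ℝ}
    (ha : 0 < a) (h : ∀ s : Node, (μ {x | PiNat.res x s.length = s}).toReal = a * w s)
    {S : Set Node} (hS : NullT w S) : μ (br S) = 0 := sorry

theorem cantor_of_pmn (h : PMN univ univ) {A : Set (ℕ → Bool)} (hA : PMσ A) : PNσ A := sorry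

end Pool.Agent.Helper32.HM
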