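import Pool.Agent.Helper32.HM.PosDefs

/-! # HM module PosHI: the iteration satisfies `HI` -/

set_option autoImplicit false

namespace Pool.Agent.Helper32.HM

open Set Filter

theorem exists_HI : ∃ (I : Type) (_ : LinearOrder I) (_ : WellFoundedLT I), Nonempty I ∧
    Nonempty (HI (Pos I) I) := sorry

end Pool.Agent.Helper32.HM
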