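import Pool.Agent.Helper32.HM.GenDefs

/-! # HM module Calc1: the filter of generic events, forcing of events -/

set_option autoImplicit false

namespace Pool.Agent.Helper32.HM

open Set Filter

variable {P : Type} [Preorder P]

instance : CountableInterFilter (aeG P) := sorry

/-- Rasiowa–Sikorski. -/
theorem exists_mem_of_ae {E : Set (GF P)} (hE : ∀ᶠ G in aeG P, G ∈ E) (p : P) :
    ∃ G ∈ E, G ∈ O p := sorry

theorem ae_dense {D : Set P} (h : ∀ p, ∃ q ≤ p, q ∈ D) :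
    ∀ᶠ G in aeG P, ∃ p ∈ D, G ∈ O p := sorry

/-- If `D` is dense below `p` then a generic filter containing `p` meets `D`. -/
theorem ae_below {D : Set P} {p : P} (h : ∀ q ≤ p, ∃ r ≤ q, r ∈ D) :
    ∀ᶠ G in aeG P, G ∈ O p → ∃ r ∈ D, r ≤ p ∧ G ∈ O r := sorry

theorem not_fo_empty (p : P) : ¬ Fo p (∅ : Set (GF P)) := sorry

theorem Fo.mono {p q : P} {E F : Set (GF P)} (h : Fo p E) (hq : q ≤ p) (hEF : E ⊆ F) : Fo q F := sorry

theorem Fo.mono_ae {p q : P} {E F : Set (GF P)} (h : Fo p E) (hq : q ≤ p)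
    (hEF : ∀ᶠ G in aeG P, G ∈ E → G ∈ F) : Fo q F := sorry

theorem Fo.and {p : P} {E F : Set (GF P)} (h : Fo p E) (h' : Fo p F) : Fo p (E ∩ F) := sorry

theorem fo_iInter {p : P} {E : ℕ → Set (GF P)} (h : ∀ n, Fo p (E n)) : Fo p (⋂ n, E n) := sorry

theorem fo_of_ae {p : P} {E : Set (GF P)} (h : ∀ᶠ G in aeG P, G ∈ E) : Fo p E := sorry

theorem Fo.not_compl {p : P} {E : Set (GF P)} (h : Fo p E) : ¬ Fo p Eᶜ := sorry

/-- (Use a maximal antichain below `p` and glue the dense sets; no chain condition.) -/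
theorem fo_of_dense {p : P} {E : Set (GF P)} (h : ∀ q ≤ p, ∃ r ≤ q, Fo r E) : Fo p E := sorry

theorem ae_of_fo {E : Set (GF P)} (h : ∀ p, ∃ q ≤ p, Fo q E) : ∀ᶠ G in aeG P, G ∈ E := sorry

theorem fo_O {p q : P} (h : p ≤ q) : Fo p (O q) := sorry

theorem fo_compl_O {p q : P} (h : ¬ Cmp p q) : Fo p (O q)ᶜ := sorry

theorem cmp_of_mem {p q : P} {G : GF P} (hp : G ∈ O p) (hq : G ∈ O q) : Cmp p q := sorry

end Pool.Agent.Helper32.HM
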