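import Pool.Agent.Helper32.HM.GenDefs

/-! # HM module Calc2: decidable events -/

set_option autoImplicit false

namespace Pool.Agent.Helper32.HM

open Set Filter

variable {P : Type} [Preorder P]

theorem bp_O (q : P) : BP (O q) := sorry

theorem BP.compl {E : Set (GF P)} (h : BP E) : BP Eᶜ := sorry

theorem BP.congr {E F : Set (GF P)} (h : BP E) (hEF : ∀ᶠ G in aeG P, (G ∈ E ↔ G ∈ F)) : BP F := sorry

theorem BP.iUnion {E : ℕ → Set (GF P)} (h : ∀ n, BP (E n)) : BP (⋃ n, E n) := sorry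

theorem BP.iInter {E : ℕ → Set (GF P)} (h : ∀ n, BP (E n)) : BP (⋂ n, E n) := sorry

theorem BP.inter {E F : Set (GF P)} (h : BP E) (h' : BP F) : BP (E ∩ F) := sorry

theorem BP.union {E F : Set (GF P)} (h : BP E) (h' : BP F) : BP (E ∪ F) := sorry

theorem bp_of_measurable {Q : Set P} {E : Set (GF P)} (h : @MeasurableSet (GF P) (Sg Q) E) :
    BP E := sorry

theorem bp_open (D : Set P) : BP (⋃ p ∈ D, O p) := sorry

theorem fo_iUnion {p : P} {E : ℕ → Set (GF P)} (hE : ∀ n, BP (E n)) (h : Fo p (⋃ n, E n)) :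
    ∃ q ≤ p, ∃ n, Fo q (E n) := sorry

/-- If `p` does not force `E` then some stronger condition forces the complement. -/
theorem BP.exists_of_not_fo {E : Set (GF P)} (hE : BP E) {p : P} (h : ¬ Fo p E) :
    ∃ q ≤ p, Fo q Eᶜ := sorry

/-- The truth lemma for one event. -/
theorem BP.truth {E : Set (GF P)} (hE : BP E) :
    ∀ᶠ G in aeG P, (G ∈ E ↔ ∃ p, G ∈ O p ∧ Fo p E) := sorry

end Pool.Agent.Helper32.HM
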