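import Pool.Agent.Helper32.HM.NmDefs

/-! # HM module Mod1a: generic models satisfy the Axiom of Choice -/

set_option autoImplicit false

namespace Pool.Agent.Helper32.HM

open Set Filter Pool.Agent.Helper87.Sym Classical

variable {P : Type} [Preorder P] [OrderTop P]

theorem hs_all (τ : Nm P) : HS (SS P) τ := sorry

/-- A generic model whose sequence respects the requirement `ch` (closure of the names under
`chN`) satisfies the Axiom of Choice. -/
theorem zfc_of_ch {R : Type} {W : R → (ℕ → Nm P) → P → Nm P → Prop} (g : Gen (SS P) W)
    (hch : ∀ τ ∈ g.N, chN τ ∈ g.N) : IsTransModelZFC g.M := sorry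

end Pool.Agent.Helper32.HM
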