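import Pool.Agent.Helper32.HM.NmDefs

/-! # HM module Mod2: names of reals -/

set_option autoImplicit false

namespace Pool.Agent.Helper32.HM

open Set Filter Pool.Agent.Helper87.Sym Classical

variable {P : Type} [Preorder P] [OrderTop P]

theorem fmem_nN_nm {f : GF P → ℕ → Bool} (hf : ∀ n, BP {G | f G n = true}) {n : ℕ} {p : P} :
    fmem (nN n) (nm f) p ↔ Fo p {G | f G n = true} := sorry

/-- The real named by `nm f` is `f`. -/
theorem rl_nm {f : GF P → ℕ → Bool} (hf : ∀ n, BP {G | f G n = true}) :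
    ∀ᶠ G in aeG P, rl (nm f) G = f G := sorry

/-- `rl τ` agrees generically with a measurable name. -/
theorem exists_nam_rl
    (hP : ∀ A : Set P, (∀ p ∈ A, ∀ q ∈ A, p ≠ q → ¬ Cmp p q) → A.Countable) (τ : Nm P) :
    ∃ f : GF P → ℕ → Bool, Nam univ f ∧ ∀ᶠ G in aeG P, f G = rl τ G := sorry

/-- A name forced to be a subset of `ω` is forced to be equal to the name of its real. -/
theorem feq_nm {τ : Nm P} {p : P} (hτ : ∀ σ : Nm P, ∀ q ≤ p, fmem σ τ q → fmem σ (chk PSet.omega) q)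
    {f : GF P → ℕ → Bool} (hf : ∀ᶠ G in aeG P, f G = rl τ G) : feq τ (nm f) p := sorry

theorem feq_nm_nm {f f' : GF P → ℕ → Bool} {p : P} (h : Fo p {G | f G = f' G}) :
    feq (nm f) (nm f') p := sorry

section Model

variable {R : Type} {W : R → (ℕ → Nm P) → P → Nm P → Prop} (g : Gen (SS P) W)

/-- The real of a name of the fragment. -/
theorem rl_pt {τ : Nm P} (hτ : τ ∈ g.N) (n : ℕ) :
    rl τ (pt g) n = true ↔ ZFSet.mk (PSet.ofNat n) ∈ g.val τ := sorry

theorem mem_realZ {x : ℕ → Bool} {z : ZFSet.{0}} :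
    z ∈ realZ x ↔ ∃ n, x n = true ∧ z = ZFSet.mk (PSet.ofNat n) := sorry

theorem realZ_inj {x y : ℕ → Bool} (h : realZ x = realZ y) : x = y := sorry

/-- If `realZ x ∈ M` then `x` is the real of a name of the fragment which is forced to be a subset
of `ω`. -/
theorem exists_name_of_realZ {x : ℕ → Bool} (hx : realZ x ∈ g.M) :
    ∃ τ ∈ g.N, g.val τ = realZ x ∧ rl τ (pt g) = x ∧
      ∃ k, ∀ σ : Nm P, ∀ q ≤ g.pc k, fmem σ τ q → fmem σ (chk PSet.omega) q := sorry

/-- The real of a name of the fragment is in `M`. -/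
theorem realZ_rl_mem {τ : Nm P} (hτ : τ ∈ g.N) : realZ (rl τ (pt g)) ∈ g.M := sorry

end Model

end Pool.Agent.Helper32.HM
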