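import Pool.Agent.Helper32.HM.TreeDefs2
import Pool.Agent.Helper32.HM.GenDefs

/-! # HM module TreeM: measurability of the operations on tree names, part 1 -/

set_option autoImplicit false

namespace Pool.Agent.Helper32.HM

open Set Classical

variable {P : Type} [Preorder P] {Q : Set P}

theorem Sg_mono {Q Q' : Set P} (h : Q ⊆ Q') : Sg Q ≤ Sg Q' := sorry

theorem measurableSet_O {p : P} (hp : p ∈ Q) : @MeasurableSet (GF P) (Sg Q) (O p) := sorry

theorem TNam.mono {Y : Type} {Q' : Set P} (h : Q ⊆ Q') {T : GF P → Set Y} (hT : TNam Q T) :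
    TNam Q' T := sorry

theorem Nam.mono {Y : Type} [MeasurableSpace Y] {Q' : Set P} (h : Q ⊆ Q') {f : GF P → Y}
    (hf : Nam Q f) : Nam Q' f := sorry

theorem tnam_const {Y : Type} (T : Set Y) : TNam Q fun _ => T := sorry

theorem TNam.union {Y : Type} {S T : GF P → Set Y} (hS : TNam Q S) (hT : TNam Q T) :
    TNam Q fun G => S G ∪ T G := sorry

theorem TNam.iUnion {Y ι : Type} [Countable ι] {T : ι → GF P → Set Y} (hT : ∀ a, TNam Q (T a)) :
    TNam Q fun G => ⋃ a, T a G := sorry

theorem TNam.iInter {Y ι : Type} [Countable ι] {T : ι → GF P → Set Y} (hT : ∀ a, TNam Q (T a)) :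
    TNam Q fun G => ⋂ a, T a G := sorry

/-- Definition by cases according to an event. -/
theorem TNam.ite {Y : Type} {S T : GF P → Set Y} (hS : TNam Q S) (hT : TNam Q T)
    {E : Set (GF P)} (hE : @MeasurableSet (GF P) (Sg Q) E) :
    TNam Q fun G => if G ∈ E then S G else T G := sorry

/-- Definition by cases according to a name of a natural number. -/
theorem TNam.comp_nat {Y : Type} {T : ℕ → GF P → Set Y} (hT : ∀ n, TNam Q (T n)) {k : GF P → ℕ}
    (hk : Nam Q k) : TNam Q fun G => T (k G) G := sorry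

theorem measurableSet_subset {Y : Type} [Countable Y] {S T : GF P → Set Y} (hS : TNam Q S)
    (hT : TNam Q T) : @MeasurableSet (GF P) (Sg Q) {G | S G ⊆ T G} := sorry

theorem measurableSet_pr {T : GF P → Set Node} (hT : TNam Q T) :
    @MeasurableSet (GF P) (Sg Q) {G | Pr (T G)} := sorry

theorem nam_mass {w : GF P → Node → ℝ} (hw : WNam Q w) {T : GF P → Set Node} (hT : TNam Q T)
    (l : ℕ) : Nam Q fun G => mass (w G) (T G) l := sorry

theorem measurableSet_nullT {w : GF P → Node → ℝ} (hw : WNam Q w) {T : GF P → Set Node}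
    (hT : TNam Q T) : @MeasurableSet (GF P) (Sg Q) {G | NullT (w G) (T G)} := sorry

theorem TNam.prune {T : GF P → Set Node} (hT : TNam Q T) : TNam Q fun G => prune (T G) := sorry

theorem TNam.bt {f : GF P → ℕ → Bool} (hf : Nam Q f) : TNam Q fun G => bt (f G) := sorry

theorem TNam.supp {w : GF P → Node → ℝ} (hw : WNam Q w) {T : GF P → Set Node} (hT : TNam Q T) :
    TNam Q fun G => supp (w G) (T G) := sorry

theorem TNam.cut {T : GF P → Set Node} (hT : TNam Q T) (l : ℕ) : TNam Q fun G => cut (T G) l := sorry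

end Pool.Agent.Helper32.HM
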