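import Pool.Agent.Helper32.HM.TreeDefs2
import Pool.Agent.Helper32.HM.GenDefs

/-! # HM module TreeN: measurability of the operations on tree names, part 2 -/

set_option autoImplicit false

namespace Pool.Agent.Helper32.HM

open Set Classical

variable {P : Type} [Preorder P] {Q : Set P}

theorem nam_enc {T : ℕ → GF P → Set Node} (hT : ∀ n, TNam Q (T n)) :
    Nam Q fun G => enc fun n => T n G := sorry

theorem TNam.tr {c : GF P → ℕ → Bool} (hc : Nam Q c) (n : ℕ) : TNam Q fun G => tr (c G) n := sorry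

theorem wnam_wt {c : GF P → ℕ → Bool} (hc : Nam Q c) : WNam Q fun G => wt (c G) := sorry

theorem measurableSet_perfT {c : GF P → ℕ → Bool} (hc : Nam Q c) :
    @MeasurableSet (GF P) (Sg Q) {G | ∀ n, PerfT (tr (c G) n)} := sorry

theorem measurableSet_nwdT {c d : GF P → ℕ → Bool} (hc : Nam Q c) (hd : Nam Q d) :
    @MeasurableSet (GF P) (Sg Q) {G | ∀ m n, NwdT (tr (c G) m) (tr (d G) n)} := sorry

theorem measurableSet_isMeas {c : GF P → ℕ → Bool} (hc : Nam Q c) :
    @MeasurableSet (GF P) (Sg Q) {G | IsMeas (wt (c G))} := sorry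

theorem measurableSet_nullSeq {c d : GF P → ℕ → Bool} (hc : Nam Q c) (hd : Nam Q d) :
    @MeasurableSet (GF P) (Sg Q) {G | ∀ m, NullT (wt (c G)) (tr (d G) m)} := sorry

theorem measurableSet_br {c d : GF P → ℕ → Bool} (hc : Nam Q c) (hd : Nam Q d) :
    @MeasurableSet (GF P) (Sg Q) {G | ∃ m, c G ∈ br (tr (d G) m)} := sorry

end Pool.Agent.Helper32.HM
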