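import Pool.Agent.Helper32.HM.CoreDefs

/-! # HM module Approx: approximating the infima on a level of the tree -/

set_option autoImplicit false

namespace Pool.Agent.Helper32.HM

open Set Filter Classical

variable {P : Type} [Preorder P] {I : Type} [LinearOrder I]

theorem DSys.shift {H : HI P I} {j : I} {C : (GF P → ℕ → ℕ) → GF P → Set Node}
    (hC : DSys H j C) {g₀ : GF P → ℕ → ℕ} (hg₀ : Nam (H.sub j) g₀) :
    DSys H j fun f => C fun G k => g₀ G k + f G k := sorry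

theorem DSys.approx {H : HI P I} {j : I} {C : (GF P → ℕ → ℕ) → GF P → Set Node}
    (hC : DSys H j C) {T' : List ℕ → GF P → Set Node} (hT' : ∀ r, TNam (H.sub j) (T' r))
    (h : ∀ r : List ℕ, ∃ g : ℕ → GF P → ℕ → ℕ, (∀ n, Nam (H.sub j) (g n)) ∧
        (∀ n G, ∀ k < r.length, g n G k = r.getD k 0) ∧
        ∀ᶠ G in aeG P, ∀ s, (∀ n, s ∈ C (g n) G) → s ∈ T' r G)
    {g₀ : GF P → ℕ → ℕ} (hg₀ : Nam (H.sub j) g₀) (n l : ℕ) :
    ∃ f : GF P → ℕ → ℕ, Nam (H.sub j) f ∧ (∀ G, ∀ k < n, f G k = 0) ∧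
      ∀ᶠ G in aeG P, ∀ s ∈ C (fun G k => g₀ G k + f G k) G, s.length = l →
        s ∈ T' ((List.range n).map (g₀ G)) G := sorry

theorem tnam_range {Q : Set P} {T' : List ℕ → GF P → Set Node} (hT' : ∀ r, TNam Q (T' r))
    {g₀ : GF P → ℕ → ℕ} (hg₀ : Nam Q g₀) (n : ℕ) :
    TNam Q fun G => T' ((List.range n).map (g₀ G)) G := sorry

end Pool.Agent.Helper32.HM
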