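import Pool.Agent.Helper32.HM.GenDefs

/-! # HM module Calc3: countable subfamilies (from the countable chain condition) -/

set_option autoImplicit false

namespace Pool.Agent.Helper32.HM

open Set Filter

variable {P : Type} [Preorder P]

/-- A countable subfamily with the same union, up to null events. -/
theorem exists_esssup (hP : ∀ A : Set P, (∀ p ∈ A, ∀ q ∈ A, p ≠ q → ¬ Cmp p q) → A.Countable)
    {ι : Type} [Nonempty ι] (E : ι → Set (GF P)) (hE : ∀ j, BP (E j)) :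
    ∃ a : ℕ → ι, ∀ j, ∀ᶠ G in aeG P, G ∈ E j → ∃ n, G ∈ E (a n) := sorry

/-- A countable subfamily with the same intersection, up to null events. -/
theorem exists_essinf (hP : ∀ A : Set P, (∀ p ∈ A, ∀ q ∈ A, p ≠ q → ¬ Cmp p q) → A.Countable)
    {ι : Type} [Nonempty ι] (E : ι → Set (GF P)) (hE : ∀ j, BP (E j)) :
    ∃ a : ℕ → ι, ∀ j, ∀ᶠ G in aeG P, (∀ n, G ∈ E (a n)) → G ∈ E j := sorry

/-- A countable maximal antichain below `p` inside `D` (possibly enumerated with repetitions). -/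
theorem exists_antichain
    (hP : ∀ A : Set P, (∀ p ∈ A, ∀ q ∈ A, p ≠ q → ¬ Cmp p q) → A.Countable)
    {D : Set P} {p : P} (h : ∀ q ≤ p, ∃ r ≤ q, r ∈ D) :
    ∃ a : ℕ → P, (∀ n, a n ∈ D ∧ a n ≤ p) ∧
      (∀ n m (G : GF P), G ∈ O (a n) → G ∈ O (a m) → a n = a m) ∧
      ∀ᶠ G in aeG P, G ∈ O p → ∃ n, G ∈ O (a n) := sorry

/-- Mixing: if densely below `p` some `E j` is forced, then countably many of the `E j` cover
the generic filters containing `p`. -/
theorem exists_mix (hP : ∀ A : Set P, (∀ p ∈ A, ∀ q ∈ A, p ≠ q → ¬ Cmp p q) → A.Countable)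
    {ι : Type} (E : ι → Set (GF P)) (hE : ∀ j, BP (E j)) {p : P}
    (h : ∀ q ≤ p, ∃ r ≤ q, ∃ j, Fo r (E j)) : ∃ a : ℕ → ι, Fo p {G | ∃ n, G ∈ E (a n)} := sorry

end Pool.Agent.Helper32.HM
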