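import Pool.Agent.Helper32.HM.RawDefs

/-! # HM module Card: the number of good conditions -/

set_option autoImplicit false

namespace Pool.Agent.Helper32.HM

open Set Filter

namespace Raw

variable {I : Type} [LinearOrder I] [WellFoundedLT I]

/-- There are at most continuum many good conditions below the stage `i`. -/
theorem card_gd (i : I) (hI : Cardinal.mk (Iio i) ≤ Cardinal.continuum) :
    Cardinal.mk {p : Raw I // Gd i p} ≤ Cardinal.continuum := sorry

end Raw

end Pool.Agent.Helper32.HM
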