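import Pool.Agent.Helper32.HM.RawDefs

/-! # HM module Color: a countable colouring by stems -/

set_option autoImplicit false

namespace Pool.Agent.Helper32.HM

open Set Filter

namespace Raw

variable {I : Type} [LinearOrder I] [WellFoundedLT I]

/-- A countable colouring such that good conditions with the same colour have the same stems on
their common indices. (Inject `Iio i` into `ℕ → Bool`.) -/
theorem exists_color (i : I) (hI : Cardinal.mk (Iio i) ≤ Cardinal.continuum) :
    ∃ col : Raw I → ℕ, ∀ p q, Gd i p → Gd i q → col p = col q →
      ∀ j s t, ent j s p → ent j t q → s = t := sorry

end Raw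

end Pool.Agent.Helper32.HM
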