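import Pool.Agent.Helper32.HM.CoreDefs

/-! # HM module Cover1: domination and Cohen genericity -/

set_option autoImplicit false

namespace Pool.Agent.Helper32.HM

open Set Filter Classical

variable {P : Type} [Preorder P] {I : Type} [LinearOrder I]

/-- The `i`-th generic real dominates all functions of the stage `i`. -/
theorem HI.dominate (H : HI P I) (i : I) {g : GF P → ℕ → ℕ} (hg : Nam (H.sub i) g) :
    ∀ᶠ G in aeG P, ∃ m, ∀ k ≥ m, g G k ≤ H.x i G k := sorry

/-- Genericity of the values of the `i`-th generic real: if countably many events `E a` of the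
stage `i` cover everything then infinitely often the value `x i G n` codes (in its first
component) a number `a` with `G ∈ E n a`. -/
theorem HI.cohen (H : HI P I) (i : I) {E : ℕ → ℕ → Set (GF P)}
    (hE : ∀ n a, @MeasurableSet (GF P) (Sg (H.sub i)) (E n a)) (hE' : ∀ n G, ∃ a, G ∈ E n a)
    (k : ℕ) : ∀ᶠ G in aeG P, ∃ n ≥ k, G ∈ E n (Nat.unpair (H.x i G n)).1 := sorry

end Pool.Agent.Helper32.HM
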