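import Pool.Agent.Helper32.HM.CoreDefs

/-! # HM module Cover2: an F_sigma null set covering all closed null sets of a stage -/

set_option autoImplicit false

namespace Pool.Agent.Helper32.HM

open Set Filter Classical

variable {P : Type} [Preorder P] {I : Type} [LinearOrder I]

theorem HI.exists_cover (H : HI P I) (i : I) {w : GF P → Node → ℝ} (hw : MeasNam H w i) :
    ∃ S : GF P → ℕ → Bool, Nam univ S ∧ (∀ G m, NullT (w G) (tr (S G) m)) ∧
      ∀ Z, NullNam H w i Z → ∀ᶠ G in aeG P, ∃ m, Z G ⊆ tr (S G) m := sorry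

end Pool.Agent.Helper32.HM
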