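import Pool.Agent.Helper32.HM.CoreDefs

/-! # HM module Hull: hulls of events and of trees -/

set_option autoImplicit false

namespace Pool.Agent.Helper32.HM

open Set Filter Classical

variable {P : Type} [Preorder P] {I : Type} [LinearOrder I]

theorem HI.hull_spec (H : HI P I) (i : I) {E : Set (GF P)} (hE : BP E) :
    IsHull H i E (H.hull i E) := sorry

/-- The hull at the stage `i` of a tree name. -/
theorem HI.TH_spec (H : HI P I) (i : I) {Q : Set P} {T : GF P → Set Node} (hT : TNam Q T)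
    (hTp : ∀ G, Pr (T G)) :
    TNam (H.sub i) (H.TH i T) ∧ (∀ᶠ G in aeG P, Pr (H.TH i T G)) ∧
      (∀ᶠ G in aeG P, T G ⊆ H.TH i T G) ∧
      ∀ F, TNam (H.sub i) F → ∀ p ∈ H.sub i, Fo p {G | T G ⊆ F G} →
        Fo p {G | H.TH i T G ⊆ F G} := sorry

/-- The closed sets `TT t g` form a decreasing system. -/
theorem HI.TT_sys (H : HI P I) (j : I) {T : GF P → Set Node} (hT : TNam (H.sub (H.nxt j)) T)
    (hTp : ∀ G, Pr (T G)) (t : List ℕ) : DSys H j (H.TT j T t) := sorry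

theorem HI.TT_upper (H : HI P I) (j : I) {T : GF P → Set Node} (hT : TNam (H.sub (H.nxt j)) T)
    (t : List ℕ) {g : GF P → ℕ → ℕ} (hg : Nam (H.sub j) g) :
    ∀ᶠ G in aeG P, G ∈ Hev (H.x j) g t → T G ⊆ H.TT j T t g G := sorry

theorem HI.TT_least (H : HI P I) (j : I) {T : GF P → Set Node} (hT : TNam (H.sub (H.nxt j)) T)
    (t : List ℕ) {g : GF P → ℕ → ℕ} (hg : Nam (H.sub j) g) {F : GF P → Set Node}
    (hF : TNam (H.sub j) F) {p : P} (hp : p ∈ H.sub j)
    (h : Fo p {G | G ∈ Hev (H.x j) g t → T G ⊆ F G}) : Fo p {G | H.TT j T t g G ⊆ F G} := sorry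

end Pool.Agent.Helper32.HM
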