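import Pool.Agent.Helper32.HM.RawDefs

/-! # HM module Index: the index set -/

set_option autoImplicit false

namespace Pool.Agent.Helper32.HM

open Set Filter

/-- The index set: a well-order of type `𝔠⁺`. -/
theorem exists_index : ∃ (I : Type) (_ : LinearOrder I) (_ : WellFoundedLT I), Nonempty I ∧
    (∀ i : I, Cardinal.mk (Iio i) ≤ Cardinal.continuum) ∧
    (∀ s : Set I, Cardinal.mk s ≤ Cardinal.continuum → ∃ b, ∀ a ∈ s, a < b) := sorry

end Pool.Agent.Helper32.HM
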