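import Pool.Agent.Helper32.HM.CoreDefs

/-! # HM module Inf: infima of decreasing systems of closed sets -/

set_option autoImplicit false

namespace Pool.Agent.Helper32.HM

open Set Filter Classical

variable {P : Type} [Preorder P] {I : Type} [LinearOrder I]

/-- The infimum of the `C g`, `g` extending the finite sequence `r`; it is the intersection of a
countable subfamily. -/
theorem DSys.exists_inf {H : HI P I} {j : I} {C : (GF P → ℕ → ℕ) → GF P → Set Node}
    (hC : DSys H j C) (r : List ℕ) :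
    ∃ T' : GF P → Set Node, TNam (H.sub j) T' ∧ (∀ G, Pr (T' G)) ∧
      (∀ g : GF P → ℕ → ℕ, Nam (H.sub j) g →
        ∀ᶠ G in aeG P, (∀ k < r.length, g G k = r.getD k 0) → T' G ⊆ C g G) ∧
      ∃ g : ℕ → GF P → ℕ → ℕ, (∀ n, Nam (H.sub j) (g n)) ∧
        (∀ n G, ∀ k < r.length, g n G k = r.getD k 0) ∧
        ∀ᶠ G in aeG P, ∀ s, (∀ n, s ∈ C (g n) G) → s ∈ T' G := sorry

end Pool.Agent.Helper32.HM
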