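import Pool.Agent.Helper32.HM.CoreDefs

/-! # HM module LemA: Lemma A -/

set_option autoImplicit false

namespace Pool.Agent.Helper32.HM

open Set Filter Classical

variable {P : Type} [Preorder P] {I : Type} [LinearOrder I]

/-- Lemma A. `C' n` contains the intersection of all `C f`, `f` vanishing below `n`. If all `C' n`
are contained in closed null sets of the stage `i` (densely below `p`) then so is some `C f`. -/
theorem lemmaA (H : HI P I) {i j : I} (hij : i ≤ j) {w : GF P → Node → ℝ} (hw : MeasNam H w i)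
    {C : (GF P → ℕ → ℕ) → GF P → Set Node} (hC : DSys H j C)
    {C' : ℕ → GF P → Set Node} (hC' : ∀ n, TNam (H.sub j) (C' n))
    (happ : ∀ n l, ∃ f : GF P → ℕ → ℕ, Nam (H.sub j) f ∧ (∀ G, ∀ k < n, f G k = 0) ∧
      ∀ᶠ G in aeG P, ∀ s ∈ C f G, s.length = l → s ∈ C' n G)
    {p : P} (hnull : ∀ n, ∀ q ≤ p, ∃ q' ≤ q, ∃ Z, NullNam H w i Z ∧ Fo q' {G | C' n G ⊆ Z G}) :
    ∃ q ≤ p, ∃ f, Nam (H.sub j) f ∧ ∃ Z, NullNam H w i Z ∧ Fo q {G | C f G ⊆ Z G} := sorry

end Pool.Agent.Helper32.HM
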