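import Pool.Agent.Helper32.HM.CoreDefs

/-! # HM module Limit: `Dag` at limit stages, and in general -/

set_option autoImplicit false

namespace Pool.Agent.Helper32.HM

open Set Filter Classical

variable {P : Type} [Preorder P] {I : Type} [LinearOrder I]

theorem dag_self (H : HI P I) {i : I} {w : GF P → Node → ℝ} (hw : MeasNam H w i) :
    Dag H w i i := sorry

theorem dag_limit (H : HI P I) {i j : I} (hij : i < j) (hj : ∀ k, j ≠ H.nxt k)
    {w : GF P → Node → ℝ} (hw : MeasNam H w i) (ih : ∀ k, i ≤ k → k < j → Dag H w i k) :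
    Dag H w i j := sorry

theorem dag_all [WellFoundedLT I] (H : HI P I) {i j : I} (hij : i ≤ j) {w : GF P → Node → ℝ}
    (hw : MeasNam H w i) : Dag H w i j := sorry

end Pool.Agent.Helper32.HM
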