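import Pool.Agent.Helper32.HM.PolDefs

/-! # HM module Pol1: a Polish space is, outside an `F_σ` null set, a closed subset of the Baire
space -/

set_option autoImplicit false

namespace Pool.Agent.Helper32.HM

open Set MeasureTheory Topology Pool.Agent.Helper26.PN

universe u

theorem exists_closedEmbedding (X : Type u) [TopologicalSpace X] [PolishSpace X]
    [MeasurableSpace X] [BorelSpace X] (μ : Measure X) [IsFiniteMeasure μ] :
    ∃ Z : Set X, IsFsig Z ∧ μ Z = 0 ∧ ∃ θ : ↥Zᶜ → (ℕ → ℕ), IsClosedEmbedding θ := sorry

end Pool.Agent.Helper32.HM
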