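import Pool.Agent.Helper32.HM.PolDefs

/-! # HM module Pol2: the Baire space in the Cantor space -/

set_option autoImplicit false

namespace Pool.Agent.Helper32.HM

open Set MeasureTheory Topology

theorem isEmbedding_iota : IsEmbedding iota := sorry

theorem countable_closure_iota {C : Set (ℕ → ℕ)} (hC : IsClosed C) :
    (closure (iota '' C) \ iota '' C).Countable := sorry

end Pool.Agent.Helper32.HM
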