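import Pool.Agent.Helper32.HM.PolDefs

/-! # HM module Pol5a: closed sets and trees, nowhere dense traces -/

set_option autoImplicit false

namespace Pool.Agent.Helper32.HM

open Set MeasureTheory Topology Pool.Agent.Helper26.PN

theorem br_treeOf {K : Set (ℕ → Bool)} (hK : IsClosed K) : br (treeOf K) = K := sorry

theorem isClosed_br (T : Set Node) : IsClosed (br T) := sorry

theorem perfect_br {T : Set Node} (hT : PerfT T) : Perfect (br T) := sorry

/-- A closed set with a meager trace on a perfect set has a nowhere dense trace. -/
theorem nwdT_of_meagre {T : Set Node} (hT : PerfT T) {K : Set (ℕ → Bool)} (hK : IsClosed K)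
    (h : IsMeagre ((↑) ⁻¹' K : Set (br T))) : NwdT (treeOf K) T := sorry

end Pool.Agent.Helper32.HM
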