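import Pool.Agent.Helper32.HM.PolDefs

/-! # HM module Pol5b: coding of measures -/

set_option autoImplicit false

namespace Pool.Agent.Helper32.HM

open Set MeasureTheory Topology Pool.Agent.Helper26.PN

/-- Every finite non-atomic measure is coded, up to a positive factor. -/
theorem exists_wt (μ : Measure (ℕ → Bool)) [IsFiniteMeasure μ] [NullSingletonClass μ] :
    ∃ c : ℕ → Bool, ∃ a : ℝ, 0 < a ∧ IsMeas (wt c) ∧
      ∀ s : Node, (μ {x | PiNat.res x s.length = s}).toReal = a * wt c s := sorry

end Pool.Agent.Helper32.HM
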