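import Pool.Agent.Helper32.HM.PosDefs

/-! # HM module Pos1: countable chain condition and cardinality of the stages -/

set_option autoImplicit false

namespace Pool.Agent.Helper32.HM

open Set Filter

variable {I : Type} [LinearOrder I] [WellFoundedLT I]

theorem pos_ccc (hI : ∀ i : I, Cardinal.mk (Iio i) ≤ Cardinal.continuum)
    (hb : ∀ s : Set I, Cardinal.mk s ≤ Cardinal.continuum → ∃ b, ∀ a ∈ s, a < b)
    (A : Set (Pos I)) (hA : ∀ p ∈ A, ∀ q ∈ A, p ≠ q → ¬ Cmp p q) : A.Countable := sorry

theorem card_psub (hI : ∀ i : I, Cardinal.mk (Iio i) ≤ Cardinal.continuum) (i : I) :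
    Cardinal.mk (psub i) ≤ Cardinal.continuum := sorry

end Pool.Agent.Helper32.HM
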