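import Pool.Agent.Helper32.HM.PosDefs

/-! # HM module Pos2: the generic reals -/

set_option autoImplicit false

namespace Pool.Agent.Helper32.HM

open Set Filter

variable {I : Type} [LinearOrder I] [WellFoundedLT I]

theorem mem_rawOf {G : GF (Pos I)} {p : Pos I} : p.raw ∈ rawOf G ↔ p ∈ G.carrier := sorry

theorem rawOf_up {G : GF (Pos I)} {r r' : Raw I} (h : r ∈ rawOf G) (h' : Raw.le r r')
    (hr' : ∃ i, Raw.Gd i r') : r' ∈ rawOf G := sorry

theorem gx_eq {G : GF (Pos I)} {i : I} {s : List ℕ} (h : Raw.one i s ∈ rawOf G) {n : ℕ}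
    (hn : n < s.length) : gx i G n = s.getD n 0 := sorry

/-- If `p ∈ G` has the entry `(i, s)` then `gx i G` extends `s`. -/
theorem gx_eq_of_ent {G : GF (Pos I)} {p : Pos I} (hp : G ∈ O p) {i : I} {s : List ℕ}
    (hs : Raw.ent i s p.raw) {n : ℕ} (hn : n < s.length) : gx i G n = s.getD n 0 := sorry

theorem gx_nam {i j : I} (hij : i < j) : Nam (psub j) (gx i) := sorry

/-- Amalgamation. -/
theorem pos_amal {i : I} {p q : Pos I} (hq : Raw.Gd i q.raw)
    (h : Raw.le q.raw (Raw.res i p.raw)) : ∃ r : Pos I, r ≤ q ∧ r ≤ p ∧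
      r.raw = Raw.amal i q.raw p.raw := sorry

/-- Stems can be made longer. -/
theorem exists_stem {i j : I} (hij : i < j) (p : Pos I) (N : ℕ) :
    ∃ q ≤ p, ∃ s, N ≤ s.length ∧ Raw.ent i s q.raw := sorry

theorem ae_stem {i j : I} (hij : i < j) :
    ∀ᶠ G in aeG (Pos I), ∀ N, ∃ s, N ≤ s.length ∧ Raw.one i s ∈ rawOf G := sorry

end Pool.Agent.Helper32.HM
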