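import Pool.Agent.Helper32.HM.PosDefs

/-! # HM module Pos3: names of functions -/

set_option autoImplicit false

namespace Pool.Agent.Helper32.HM

open Set Filter

variable {I : Type} [LinearOrder I] [WellFoundedLT I]

theorem GdN.ae {i : I} {c : ℕ → ℕ → Raw I} (hc : GdN i c) :
    ∀ᶠ G in aeG (Pos I), ∀ n, ∃ k, c n k ∈ rawOf G := sorry

theorem GdN.nam {i : I} {c : ℕ → ℕ → Raw I} (hc : GdN i c) (v : ℕ → ℕ → ℕ) :
    Nam (psub i) (ev c v) := sorry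

theorem GdN.ev_le_iff {i : I} {c : ℕ → ℕ → Raw I} (hc : GdN i c) (v : ℕ → ℕ → ℕ) :
    ∀ᶠ G in aeG (Pos I), ∀ n w, ev c v G n ≤ w ↔ ∃ k, c n k ∈ rawOf G ∧ v n k ≤ w := sorry

/-- Every name of a function of the stage `i` is given by a good raw name. -/
theorem exists_rawName
    (hP : ∀ A : Set (Pos I), (∀ p ∈ A, ∀ q ∈ A, p ≠ q → ¬ Cmp p q) → A.Countable) {i : I}
    {f : GF (Pos I) → ℕ → ℕ} (hf : Nam (psub i) f) :
    ∃ c v, GdN i c ∧ ∀ᶠ G in aeG (Pos I), ∀ n, ev c v G n = f G n := sorry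

end Pool.Agent.Helper32.HM
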