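import Pool.Agent.Helper32.HM.PosDefs

/-! # HM module Pos4: Hechler genericity -/

set_option autoImplicit false

namespace Pool.Agent.Helper32.HM

open Set Filter

variable {I : Type} [LinearOrder I] [WellFoundedLT I]

/-- The meaning of a condition with the top index `i`. -/
theorem hech_iff {i j : I} (hij : i < j) {s : List ℕ} {m : ℕ} {c : ℕ → ℕ → ℕ → Raw I}
    {v : ℕ → ℕ → ℕ → ℕ} {p' : Raw I} {p : Pos I} (hp : p.raw = .cons i s m c v p') :
    ∀ᶠ G in aeG (Pos I), (G ∈ O p ↔ p' ∈ rawOf G ∧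
      G ∈ Hev (gx i) (fun G n => (Finset.range m).sup fun a => ev (c a) (v a) G n) s) := sorry

end Pool.Agent.Helper32.HM
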