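import Pool.Agent.Helper32.HM.PosDefs

/-! # HM module Pos5: the two genericity properties `hech`, `coh` of `HI` -/

set_option autoImplicit false

namespace Pool.Agent.Helper32.HM

open Set Filter

variable {I : Type} [LinearOrder I] [WellFoundedLT I]

/-- `j` is the successor of `i`. -/
theorem pos_hech
    (hP : ∀ A : Set (Pos I), (∀ p ∈ A, ∀ q ∈ A, p ≠ q → ¬ Cmp p q) → A.Countable)
    {i j : I} (hij : i < j) (hj : ∀ k, i < k → j ≤ k) (p : Pos I) (hp : p ∈ psub j) (p₁ : Pos I)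
    (hp₁ : p₁.raw = Raw.res i p.raw) :
    ∃ (t : List ℕ) (g : GF (Pos I) → ℕ → ℕ), Nam (psub i) g ∧
      (∀ᶠ G in aeG (Pos I), (G ∈ O p ↔ G ∈ O p₁ ∧ G ∈ Hev (gx i) g t)) ∧
      ∀ q ∈ psub i, q ≤ p₁ → ∀ f, Nam (psub i) f →
        ∃ r, r ≤ p ∧ r ≤ q ∧ Fo r (Hev (gx i) f t) := sorry

theorem pos_coh {i j : I} (hij : i < j) (hj : ∀ k, i < k → j ≤ k) (p : Pos I) (hp : p ∈ psub j)
    (N : ℕ) : ∃ n ≥ N, ∃ p1 ≤ p, p1 ∈ psub j ∧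
      ∀ q ∈ psub i, Raw.le q.raw (Raw.res i p1.raw) → ∃ b : ℕ, ∃ q' ∈ psub i, q' ≤ q ∧ ∀ v ≥ b,
        ∃ r, r ≤ p1 ∧ r ≤ q' ∧ Fo r {G | gx i G n = v} := sorry

end Pool.Agent.Helper32.HM
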