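import Pool.Agent.Helper32.HM.RawDefs

/-! # HM module RawA: order, restriction and amalgamation of raw conditions -/

set_option autoImplicit false

namespace Pool.Agent.Helper32.HM

open Set Filter

namespace Raw

variable {I : Type} [LinearOrder I]

/-- An entry with an index above all those of `q` can be removed on the left. -/
theorem cons_le {i : I} {s : List ℕ} {m : ℕ} {c : ℕ → ℕ → ℕ → Raw I} {v : ℕ → ℕ → ℕ → ℕ}
    {p q : Raw I} (hq : bel i q) (h : le p q) : le (.cons i s m c v p) q := sorry

/-- The same index on both sides. -/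
theorem cons_le_cons {i : I} {s t : List ℕ} {m m' : ℕ} {c c' : ℕ → ℕ → ℕ → Raw I}
    {v v' : ℕ → ℕ → ℕ → ℕ} {p q : Raw I} (h : le p q) (ht : t <+: s)
    (hn : ∀ a' < m', ∃ a < m, c a = c' a' ∧ v a = v' a')
    (hs : ∀ a' < m', ∀ n, t.length ≤ n → n < s.length →
      ∃ k, le p (c' a' n k) ∧ v' a' n k ≤ s.getD n 0) :
    le (.cons i s m c v p) (.cons i t m' c' v' q) := sorry

theorem ent_of_le {p q : Raw I} (h : le p q) {i : I} {t : List ℕ} (ht : ent i t q) :
    ∃ s, t <+: s ∧ ent i s p := sorry

theorem bel_res (i : I) (p : Raw I) : bel i (res i p) := sorry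

theorem le_res (i : I) (p : Raw I) : le p (res i p) := sorry

theorem res_mono (i : I) {p q : Raw I} (h : le p q) : le (res i p) (res i q) := sorry

theorem res_of_bel {i : I} {p : Raw I} (h : bel i p) : res i p = p := sorry

theorem res_res {i j : I} (h : i ≤ j) (p : Raw I) : res i (res j p) = res i p := sorry

theorem amal_le_left (i : I) {q : Raw I} (hq : bel i q) (p : Raw I) : le (amal i q p) q := sorry

theorem amal_le_right (i : I) {q p : Raw I} (h : le q (res i p)) : le (amal i q p) p := sorry

theorem res_amal (i : I) {q : Raw I} (hq : bel i q) (p : Raw I) : res i (amal i q p) = q := sorry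

end Raw

end Pool.Agent.Helper32.HM
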