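import Pool.Agent.Helper32.HM.RawDefs

/-! # HM module RawB: good conditions -/

set_option autoImplicit false

namespace Pool.Agent.Helper32.HM

open Set Filter

namespace Raw

variable {I : Type} [LinearOrder I] [WellFoundedLT I]

theorem Gd.bel {i : I} {p : Raw I} (h : Gd i p) : Raw.bel i p := sorry

theorem Gd.mono {i j : I} (hij : i ≤ j) {p : Raw I} (h : Gd i p) : Gd j p := sorry

theorem Gd.res {j : I} {p : Raw I} (h : Gd j p) (i : I) : Gd i (Raw.res i p) := sorry

theorem Gd.of_bel {i j : I} {p : Raw I} (h : Gd j p) (h' : Raw.bel i p) : Gd i p := sorry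

theorem Gd.amal {i j : I} (hij : i ≤ j) {q p : Raw I} (hq : Gd i q) (hp : Gd j p) :
    Gd j (Raw.amal i q p) := sorry

theorem Gd.ent_lt {i j : I} {p : Raw I} (h : Gd i p) {s : List ℕ} (hs : ent j s p) : j < i := sorry

theorem Gd.ent_unique {i j : I} {p : Raw I} (h : Gd i p) {s t : List ℕ} (hs : ent j s p)
    (ht : ent j t p) : s = t := sorry

theorem gd_one (i : I) (s : List ℕ) {j : I} (h : i < j) : Gd j (one i s) := sorry

/-- A good condition with the entry `(i, s)` is stronger than `one i s`. -/
theorem le_one {j i : I} {p : Raw I} (hp : Gd j p) {s : List ℕ} (hs : ent i s p) :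
    le p (one i s) := sorry

/-- Continuity at limit indices. -/
theorem Gd.limit {i : I} {p : Raw I} (h : Gd i p) (hp : p ≠ .nil) :
    ∃ j < i, ∀ k, j < k → Gd k p := sorry

end Raw

end Pool.Agent.Helper32.HM
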