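import Pool.Agent.Helper32.HM.RawDefs

/-! # HM module RawC: merging conditions with the same stems -/

set_option autoImplicit false

namespace Pool.Agent.Helper32.HM

open Set Filter

namespace Raw

variable {I : Type} [LinearOrder I] [WellFoundedLT I]

/-- Two good conditions whose stems agree on the common indices are compatible. -/
theorem exists_merge {i : I} {p q : Raw I} (hp : Gd i p) (hq : Gd i q)
    (h : ∀ j s t, ent j s p → ent j t q → s = t) : ∃ r, Gd i r ∧ le r p ∧ le r q := sorry

end Raw

end Pool.Agent.Helper32.HM
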