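import Pool.Agent.Helper32.HM.GenDefs

/-! # HM module Sub1: events of the stages of the iteration, hulls -/

set_option autoImplicit false

namespace Pool.Agent.Helper32.HM

open Set Filter

variable {P : Type} [Preorder P] {I : Type} [LinearOrder I]

/-- Events of the stage `i` can be decided by conditions of the stage `i`. -/
theorem HI.decide (H : HI P I) {i : I} {E : Set (GF P)}
    (hE : @MeasurableSet (GF P) (Sg (H.sub i)) E) {p : P} (hp : p ∈ H.sub i) :
    ∃ q ∈ H.sub i, q ≤ p ∧ (Fo q E ∨ Fo q Eᶜ) := sorry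

/-- Forcing of an event of the stage `i` only depends on the restriction to the stage `i`. -/
theorem HI.fo_res (H : HI P I) {i : I} {E : Set (GF P)}
    (hE : @MeasurableSet (GF P) (Sg (H.sub i)) E) {p : P} : Fo p E ↔ Fo (H.res i p) E := sorry

/-- A common extension inside the stage `j`. -/
theorem HI.cmp_sub (H : HI P I) {i j : I} (hij : i ≤ j) {p q : P} (hp : p ∈ H.sub j)
    (hq : q ∈ H.sub i) (h : q ≤ H.res i p) : ∃ r ∈ H.sub j, r ≤ q ∧ r ≤ p := sorry

/-- The smallest event of the stage `i` containing `E` (up to null events). -/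
theorem HI.exists_hull (H : HI P I) (i : I) {E : Set (GF P)} (hE : BP E) :
    ∃ F, @MeasurableSet (GF P) (Sg (H.sub i)) F ∧ (∀ᶠ G in aeG P, G ∈ E → G ∈ F) ∧
      ∀ F', @MeasurableSet (GF P) (Sg (H.sub i)) F' → (∀ᶠ G in aeG P, G ∈ E → G ∈ F') →
        ∀ᶠ G in aeG P, G ∈ F → G ∈ F' := sorry

end Pool.Agent.Helper32.HM
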