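import Pool.Agent.Helper32.HM.TreeDefs2
import Pool.Agent.Helper32.HM.GenDefs

/-! # HM module Sub2: continuity of the stages -/

set_option autoImplicit false

namespace Pool.Agent.Helper32.HM

open Set Filter

variable {P : Type} [Preorder P] {I : Type} [LinearOrder I]

/-- At limit stages of uncountable cofinality no new events appear. -/
theorem HI.sg_limit (H : HI P I) {i : I} (hi : ∀ j, i ≠ H.nxt j) (hi' : ∃ j, j < i)
    (hcof : ∀ c : ℕ → I, (∀ n, c n < i) → ∃ j < i, ∀ n, c n ≤ j) {E : Set (GF P)}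
    (hE : @MeasurableSet (GF P) (Sg (H.sub i)) E) :
    ∃ j < i, @MeasurableSet (GF P) (Sg (H.sub j)) E := sorry

theorem HI.sg_top (H : HI P I) {E : Set (GF P)} (hE : @MeasurableSet (GF P) (Sg univ) E) :
    ∃ i, @MeasurableSet (GF P) (Sg (H.sub i)) E := sorry

theorem HI.tnam_limit (H : HI P I) {i : I} (hi : ∀ j, i ≠ H.nxt j) (hi' : ∃ j, j < i)
    (hcof : ∀ c : ℕ → I, (∀ n, c n < i) → ∃ j < i, ∀ n, c n ≤ j) {Y : Type} [Countable Y]
    {T : GF P → Set Y} (hT : TNam (H.sub i) T) : ∃ j < i, TNam (H.sub j) T := sorry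

theorem HI.nam_limit (H : HI P I) {i : I} (hi : ∀ j, i ≠ H.nxt j) (hi' : ∃ j, j < i)
    (hcof : ∀ c : ℕ → I, (∀ n, c n < i) → ∃ j < i, ∀ n, c n ≤ j)
    {f : GF P → ℕ → Bool} (hf : Nam (H.sub i) f) : ∃ j < i, Nam (H.sub j) f := sorry

theorem HI.nam_top (H : HI P I) {f : GF P → ℕ → Bool} (hf : Nam univ f) :
    ∃ i, Nam (H.sub i) f := sorry

end Pool.Agent.Helper32.HM
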