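import Pool.Agent.Helper32.HM.TreeDefs2
import Pool.Agent.Helper32.HM.GenDefs

/-! # HM module Sub3: the number of names -/

set_option autoImplicit false

namespace Pool.Agent.Helper32.HM

open Set Filter

variable {P : Type} [Preorder P] {I : Type} [LinearOrder I]

/-- There are at most continuum many names of reals of the stage `i`. -/
theorem HI.card_nam (H : HI P I) (i : I) :
    Cardinal.mk {f : GF P → ℕ → Bool // Nam (H.sub i) f} ≤ Cardinal.continuum := sorry

end Pool.Agent.Helper32.HM
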