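import Pool.Agent.Helper32.HM.TreeDefs2
import Pool.Agent.Helper32.HM.GenDefs

/-! # HM module Sub4: closing off -/

set_option autoImplicit false

namespace Pool.Agent.Helper32.HM

open Set Filter

variable {P : Type} [Preorder P] {I : Type} [LinearOrder I]

/-- Closing off. -/
theorem HI.closing_off [WellFoundedLT I] (H : HI P I) (ψ : I → I) (i₀ : I) :
    ∃ i, i₀ ≤ i ∧ (∀ j < i, ψ j < i) ∧ (∃ j, j < i) ∧
      ∀ c : ℕ → I, (∀ n, c n < i) → ∃ j < i, ∀ n, c n ≤ j := sorry

end Pool.Agent.Helper32.HM
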