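import Pool.Agent.Helper32.HM.CoreDefs

/-! # HM module Succ: `Dag` at successor stages -/

set_option autoImplicit false

namespace Pool.Agent.Helper32.HM

open Set Filter Classical

variable {P : Type} [Preorder P] {I : Type} [LinearOrder I]

theorem dag_succ (H : HI P I) {i j : I} (hij : i ≤ j) {w : GF P → Node → ℝ} (hw : MeasNam H w i)
    (h : Dag H w i j) : Dag H w i (H.nxt j) := sorry

end Pool.Agent.Helper32.HM
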