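import Pool.Agent.Helper32.HM.TreeDefs2

/-! # HM module Tree1: basic facts on trees and masses -/

set_option autoImplicit false

namespace Pool.Agent.Helper32.HM

open Set Classical

theorem mem_nodes {l : ℕ} {s : Node} : s ∈ nodes l ↔ s.length = l := sorry

theorem mass_nonneg {w : Node → ℝ} (hw : IsMeas w) (S : Set Node) (l : ℕ) : 0 ≤ mass w S l := sorry

theorem mass_mono {w : Node → ℝ} (hw : IsMeas w) {S T : Set Node} {l : ℕ}
    (h : ∀ s ∈ S, s.length = l → s ∈ T) : mass w S l ≤ mass w T l := sorry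

theorem mass_anti {w : Node → ℝ} (hw : IsMeas w) {S : Set Node} (hS : ∀ b s, b :: s ∈ S → s ∈ S)
    {l l' : ℕ} (h : l ≤ l') : mass w S l' ≤ mass w S l := sorry

theorem mass_union_le {w : Node → ℝ} (hw : IsMeas w) (S T : Set Node) (l : ℕ) :
    mass w (S ∪ T) l ≤ mass w S l + mass w T l := sorry

theorem Pr.down {S : Set Node} (h : Pr S) {b : Bool} {s : Node} (hs : b :: s ∈ S) : s ∈ S := sorry

theorem Pr.suffix {S : Set Node} (h : Pr S) {s t : Node} (hs : s ∈ S) (ht : t <:+ s) : t ∈ S := sorry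

theorem Pr.extend {S : Set Node} (h : Pr S) {s : Node} (hs : s ∈ S) {l : ℕ} (hl : s.length ≤ l) :
    ∃ t ∈ S, t.length = l ∧ s <:+ t := sorry

theorem Pr.union {S T : Set Node} (hS : Pr S) (hT : Pr T) : Pr (S ∪ T) := sorry

theorem Pr.biUnion {ι : Type} {S : ι → Set Node} (F : Set ι) (hS : ∀ a ∈ F, Pr (S a)) :
    Pr (⋃ a ∈ F, S a) := sorry

theorem Pr.empty : Pr (∅ : Set Node) := sorry

theorem nullT_empty (w : Node → ℝ) : NullT w ∅ := sorry

theorem NullT.mono {w : Node → ℝ} (hw : IsMeas w) {S T : Set Node} (h : NullT w T) (hST : S ⊆ T) :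
    NullT w S := sorry

theorem NullT.exists_level {w : Node → ℝ} (hw : IsMeas w) {S : Set Node} (hS : Pr S)
    (h : NullT w S) {ε : ℝ} (hε : 0 < ε) : ∃ l, ∀ l' ≥ l, mass w S l' < ε := sorry

theorem nullT_biUnion {w : Node → ℝ} (hw : IsMeas w) {ι : Type} {S : ι → Set Node} (F : Set ι)
    (hF : F.Finite) (hS : ∀ a ∈ F, Pr (S a)) (hS' : ∀ a ∈ F, NullT w (S a)) :
    NullT w (⋃ a ∈ F, S a) := sorry

end Pool.Agent.Helper32.HM
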