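import Pool.Agent.Helper32.HM.TreeDefs2

/-! # HM module Tree2: pruning, branches, clopen cuts -/

set_option autoImplicit false

namespace Pool.Agent.Helper32.HM

open Set Classical

theorem pr_prune (T : Set Node) : Pr (prune T) := sorry

theorem prune_subset (T : Set Node) : prune T ⊆ T := sorry

theorem subset_prune {S T : Set Node} (hS : Pr S) (h : S ⊆ T) : S ⊆ prune T := sorry

theorem pr_bt (x : ℕ → Bool) : Pr (bt x) := sorry

theorem bt_subset_iff {x : ℕ → Bool} {T : Set Node} : bt x ⊆ T ↔ x ∈ br T := sorry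

theorem tr_enc (T : ℕ → Set Node) (n : ℕ) : tr (enc T) n = T n := sorry

/-- The closed null set used in Lemma A. -/
theorem nullT_cuts {w : Node → ℝ} (hw : IsMeas w) (U : ℕ → Set Node) (l : ℕ → ℕ)
    (hU : ∀ N, mass w (U N) (l N) < (1 / 2 : ℝ) ^ N) : NullT w (prune (⋂ N, cut (U N) (l N))) := sorry

theorem subset_cuts {K : Set Node} (hK : Pr K) (U : ℕ → Set Node) (l : ℕ → ℕ)
    (h : ∀ N, ∀ s ∈ K, s.length = l N → s ∈ U N) : K ⊆ prune (⋂ N, cut (U N) (l N)) := sorry

end Pool.Agent.Helper32.HM
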