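import Pool.Agent.Helper32.HM.TreeDefs2

/-! # HM module Tree3: supports are perfect; the covering null sets -/

set_option autoImplicit false

namespace Pool.Agent.Helper32.HM

open Set Classical

theorem supp_subset (w : Node → ℝ) (K : Set Node) : supp w K ⊆ K := sorry

theorem perfT_univ : PerfT (univ : Set Node) := sorry

/-- The support of a non-atomic measure restricted to a non-null closed set is perfect. -/
theorem perfT_supp {w : Node → ℝ} (hw : IsMeas w) {K : Set Node} (hK : Pr K) (h : ¬ NullT w K) :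
    PerfT (supp w K) := sorry

theorem nullT_cov {w : Node → ℝ} (hw : IsMeas w) {C : ℕ → ℕ × Finset Node}
    (hC : ∀ n, ∀ t ∈ (C n).2, t.length = (C n).1) (hs : ∀ n, ∑ t ∈ (C n).2, w t < (1 / 2 : ℝ) ^ n)
    (d : ℕ → ℕ) (m : ℕ) : NullT w (cov C d m) := sorry

theorem subset_cov {Z : Set Node} (hZ : Pr Z) {C : ℕ → ℕ × Finset Node} {d : ℕ → ℕ} {m : ℕ}
    (h : ∀ k ≥ m, ∃ n, k ≤ n ∧ n ≤ d k ∧ ∀ s ∈ Z, s.length = (C n).1 → s ∈ (C n).2) :
    Z ⊆ cov C d m := sorry

/-- A null pruned tree is covered by clopen sets of small mass. -/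
theorem exists_clopen {w : Node → ℝ} {Z : Set Node} (hZ' : NullT w Z) {ε : ℝ} (hε : 0 < ε) :
    ∃ (l : ℕ) (D : Finset Node), (∀ t ∈ D, t.length = l) ∧ ∑ t ∈ D, w t < ε ∧
      ∀ s ∈ Z, s.length = l → s ∈ D := sorry

end Pool.Agent.Helper32.HM
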